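import Pool.Agent.Helper923.HUpperQ
import Pool.Agent.R453.GS.Wt0

/-! The number of the integers without a large prime factor, and the value `ρ(6)` of the Dickman function. -/

set_option autoImplicit false

namespace Pool.Agent.T2h83.AQ

open Finset Filter
open Pool.Agent.Helper923.HRho (rho rho_mul rho_anti rho_one rho_cont rho_lip)
open Pool.Agent.Helper923.HUpperQ (Pr Gs)

/-- the last twenty values, scaled -/
def LL : ℕ → List ℕ
  | 0 => List.replicate 20 1000000000
  | n + 1 => ((LL n).sum / (n + 21) + 1) :: (LL n).dropLast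

lemma LL_len (n : ℕ) : (LL n).length = 20 := by
  induction n with
  | zero => rfl
  | succ n ih =>
    change (((LL n).sum / (n + 21) + 1) :: (LL n).dropLast).length = 20
    rw [List.length_cons, List.length_dropLast, ih]

lemma LL_val : (LL 100)[0]'(by rw [LL_len]; norm_num) ≤ 30000 := by
  decide +kernel

lemma rho_grid {k : ℕ} (hk : 1 ≤ k) {v : ℝ} (hv : 1 ≤ v) :
    v * rho v ≤ ∑ i ∈ range k, (1 / k) * rho (v - (i + 1) / k) := by
  rw [rho_mul hv]
  have hii : ∀ a b : ℝ, IntervalIntegrable rho MeasureTheory.volume a b :=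
    fun a b => rho_cont.intervalIntegrable a b
  have hk0 : (0 : ℝ) < k := by exact_mod_cast hk
  have key : ∀ n : ℕ, ∫ s in (v - n / k)..v, rho s ≤ ∑ i ∈ range n, (1 / k) * rho (v - (i + 1) / k) := by
    intro n
    induction n with
    | zero => simp
    | succ n ih =>
      rw [sum_range_succ, ← intervalIntegral.integral_add_adjacent_intervals (hii _ (v - n / k)) (hii _ _)]
      push_cast
      have h0 : v - ((n : ℝ) + 1) / k ≤ v - n / k := by
        apply sub_le_sub_left
        apply div_le_div_of_nonneg_right (by linarith) hk0.le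
      have h1 : ∫ s in (v - ((n : ℝ) + 1) / k)..(v - n / k), rho s ≤
          ∫ _s in (v - ((n : ℝ) + 1) / k)..(v - n / k), rho (v - ((n : ℝ) + 1) / k) := by
        apply intervalIntegral.integral_mono_on h0 (hii _ _) intervalIntegrable_const
        intro s hs
        exact rho_anti hs.1
      rw [intervalIntegral.integral_const, smul_eq_mul] at h1
      have h2 : v - (n : ℝ) / k - (v - ((n : ℝ) + 1) / k) = 1 / k := by ring
      rw [h2] at h1
      linarith
  have h := key k
  rwa [div_self hk0.ne'] at h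

lemma sum_le_list (l : List ℕ) : ∀ f : ℕ → ℝ, (∀ (i : ℕ) (h : i < l.length), f i ≤ (l[i] : ℝ)) →
    ∑ i ∈ range l.length, f i ≤ ((l.sum : ℕ) : ℝ) := by
  induction l with
  | nil =>
    intro f _
    simp
  | cons a l ih =>
    intro f h
    rw [List.length_cons, sum_range_succ', List.sum_cons]
    have h1 := ih (fun i => f (i + 1)) (fun i hi => by
      have := h (i + 1) (by rw [List.length_cons]; omega)
      simpa using this)
    have h2 := h 0 (by rw [List.length_cons]; omega)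
    simp only [List.getElem_cons_zero] at h2
    rw [Nat.cast_add]
    linarith

lemma LL_bd (n : ℕ) : ∀ (i : ℕ) (h : i < (LL n).length),
    1000000000 * rho (((n + 20 : ℕ) - i : ℝ) / 20) ≤ ((LL n)[i] : ℝ) := by
  induction n with
  | zero =>
    intro i h
    have h1 : (LL 0)[i] = 1000000000 := by
      have : LL 0 = List.replicate 20 1000000000 := rfl
      simp only [this, List.getElem_replicate]
    rw [h1]
    have h2 : rho (((0 + 20 : ℕ) - i : ℝ) / 20) = 1 := by
      apply rho_one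
      push_cast
      rw [div_le_one (by norm_num)]
      have : (0 : ℝ) ≤ i := Nat.cast_nonneg _
      linarith
    rw [h2]
    norm_num
  | succ n ih =>
    intro i h
    have hlen := LL_len n
    have hdef : LL (n + 1) = ((LL n).sum / (n + 21) + 1) :: (LL n).dropLast := rfl
    rcases Nat.eq_zero_or_pos i with hi | hi
    · subst hi
      have h1 : (LL (n + 1))[0] = (LL n).sum / (n + 21) + 1 := by
        simp only [hdef, List.getElem_cons_zero]
      rw [h1]
      have hg := rho_grid (k := 20) (by norm_num) (v := ((n + 1 + 20 : ℕ) - (0 : ℕ) : ℝ) / 20) (by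
        push_cast
        rw [sub_zero, le_div_iff₀ (by norm_num)]
        have : (0 : ℝ) ≤ n := Nat.cast_nonneg _
        linarith)
      have hs := sum_le_list (LL n) (fun i => 1000000000 * rho (((n + 20 : ℕ) - i : ℝ) / 20)) (fun i h => ih i h)
      rw [hlen, ← mul_sum] at hs
      have e1 : ∑ i ∈ range 20, (1 / ((20 : ℕ) : ℝ)) * rho (((n + 1 + 20 : ℕ) - (0 : ℕ) : ℝ) / 20 - (i + 1) / ((20 : ℕ) : ℝ)) =
          (1 / 20) * ∑ i ∈ range 20, rho (((n + 20 : ℕ) - i : ℝ) / 20) := by
        rw [mul_sum]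
        refine sum_congr rfl fun i _ => ?_
        push_cast
        congr 2
        ring
      rw [e1] at hg
      have hn0 : (0 : ℝ) < (n : ℝ) + 21 := by positivity
      have e2 : (((n + 1 + 20 : ℕ) - (0 : ℕ) : ℝ) / 20) = ((n : ℝ) + 21) / 20 := by
        push_cast
        ring
      rw [e2] at hg ⊢
      have h3 : (((LL n).sum : ℕ) : ℝ) ≤ (((LL n).sum / (n + 21) + 1 : ℕ) : ℝ) * ((n : ℝ) + 21) := by
        have := Nat.lt_div_mul_add (show 0 < n + 21 by omega) (a := (LL n).sum)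
        have h4 : (LL n).sum ≤ ((LL n).sum / (n + 21) + 1) * (n + 21) := by
          rw [add_mul, one_mul]
          exact this.le
        exact_mod_cast h4
      have h5 : 1000000000 * rho (((n : ℝ) + 21) / 20) * ((n : ℝ) + 21) ≤ (((LL n).sum : ℕ) : ℝ) := by
        refine le_trans ?_ hs
        linarith
      exact le_of_mul_le_mul_right (h5.trans h3) hn0
    · obtain ⟨j, rfl⟩ : ∃ j, i = j + 1 := ⟨i - 1, by omega⟩
      have hj : j < (LL n).dropLast.length := by
        rw [LL_len] at h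
        rw [List.length_dropLast, hlen]
        omega
      have h1 : (LL (n + 1))[j + 1] = (LL n)[j]'(by rw [hlen]; rw [LL_len] at h; omega) := by
        simp only [hdef, List.getElem_cons_succ, List.getElem_dropLast]
      rw [h1]
      have h2 := ih j (by rw [hlen]; rw [LL_len] at h; omega)
      have e : (((n + 1 + 20 : ℕ) : ℝ) - ((j + 1 : ℕ) : ℝ)) = ((n + 20 : ℕ) : ℝ) - j := by
        push_cast
        ring
      rw [e]
      exact h2

theorem rho_six : rho 6 ≤ 3 / 100000 := by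
  have h := LL_bd 100 0 (by rw [LL_len]; norm_num)
  have h1 : ((LL 100)[0]'(by rw [LL_len]; norm_num) : ℝ) ≤ 30000 := by exact_mod_cast LL_val
  have e : (((100 + 20 : ℕ) - (0 : ℕ) : ℝ) / 20) = 6 := by norm_num
  rw [e] at h
  linarith

open Classical in
/-- few integers are smooth, first form -/
lemma few_smooth1 {u c : ℝ} (hu : 1 < u) (hc : rho u < c) : ∃ M₀ : ℕ, ∀ M : ℕ, M₀ ≤ M →
    (((Icc 1 M).filter (fun m : ℕ => ∀ p : ℕ, p.Prime → p ∣ m → p ≤ ⌊(M : ℝ) ^ (1 / u)⌋₊)).card : ℝ) ≤ c * M := by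
  obtain ⟨C, hC0, hC⟩ := Pool.Agent.Helper923.HMertens.mertens_ratio
  obtain ⟨d, hd⟩ : ∃ d, d = c - rho u := ⟨_, rfl⟩
  have hd0 : 0 < d := by linarith
  have hu0 : 0 < u := by linarith
  obtain ⟨Y₀, hY⟩ := Pool.Agent.Helper923.HUpperQ.upper (Real.log (2 * u) + 1) (by
    have : 0 ≤ Real.log (2 * u) := Real.log_nonneg (by linarith)
    linarith) (d / 2) (by linarith)
  obtain ⟨K, hK⟩ : ∃ K, K = u * (2 + C + 2 * C * u / d + Real.log (Y₀ + 2)) + 2 * u := ⟨_, rfl⟩
  have hlog := (Real.tendsto_log_atTop.comp (tendsto_natCast_atTop_atTop (R := ℝ))).eventually_ge_atTop K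
  rw [eventually_atTop] at hlog
  obtain ⟨n1, hn1⟩ := hlog
  refine ⟨n1 + 3, fun M hM => ?_⟩
  obtain ⟨L, hL⟩ : ∃ L, L = Real.log M := ⟨_, rfl⟩
  have hLK : K ≤ L := by rw [hL]; exact hn1 M (by omega)
  have hM0 : (0 : ℝ) < M := by exact_mod_cast (by omega : 0 < M)
  have hM1 : (1 : ℝ) ≤ M := by exact_mod_cast (by omega : 1 ≤ M)
  obtain ⟨hy1, hy2, hy3⟩ := Pool.Agent.R453.GS.log_floor (γ := 1 / u) (N := M) (by positivity) (by omega)
  obtain ⟨y, hy⟩ : ∃ y : ℕ, y = ⌊(M : ℝ) ^ (1 / u)⌋₊ := ⟨_, rfl⟩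
  rw [← hy] at hy1 hy2 hy3 ⊢
  rw [← hL] at hy2 hy3
  obtain ⟨l, hl⟩ : ∃ l, l = Real.log (y : ℝ) := ⟨_, rfl⟩
  rw [← hl] at hy2 hy3
  have hq1 : 0 ≤ 2 * C * u / d := by positivity
  have hY1 : 0 ≤ Real.log ((Y₀ : ℝ) + 2) := Real.log_nonneg (by
    have : (0 : ℝ) ≤ Y₀ := Nat.cast_nonneg _
    linarith)
  have hLu : 2 + C + 2 * C * u / d + Real.log (Y₀ + 2) + 2 ≤ 1 / u * L := by
    have h1 : u * (2 + C + 2 * C * u / d + Real.log (Y₀ + 2) + 2) ≤ L := by
      refine le_trans (le_of_eq ?_) hLK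
      rw [hK]
      ring
    rw [one_div_mul_eq_div, le_div_iff₀ hu0]
    linarith
  have hl1 : 1 + C + 2 * C * u / d + Real.log (Y₀ + 2) + 2 ≤ l := by linarith
  have hl0 : 0 < l := by linarith
  have hLl : L / (2 * u) ≤ l := by
    have : 1 / u * L = 2 * (L / (2 * u)) := by field_simp
    linarith
  have hL0 : 0 < L := by
    have : 0 < 1 / u * L := by linarith
    rw [one_div_mul_eq_div] at this
    have h2 : L = L / u * u := by field_simp
    rw [h2]
    positivity
  have hy0 : (0 : ℝ) < y := by exact_mod_cast hy1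
  have hY' : Y₀ + 2 ≤ y := by
    have : Real.log ((Y₀ : ℝ) + 2) ≤ Real.log y := by rw [← hl]; linarith
    have h2 := (Real.log_le_log_iff (by positivity) hy0).1 this
    exact_mod_cast h2
  have hyM : y ≤ M := by
    have h1 : ((⌊(M : ℝ) ^ (1 / u)⌋₊ : ℕ) : ℝ) ≤ (M : ℝ) ^ (1 / u) := Nat.floor_le (by positivity)
    rw [← hy] at h1
    have h2 : (M : ℝ) ^ (1 / u) ≤ (M : ℝ) ^ (1 : ℝ) := Real.rpow_le_rpow_of_exponent_le hM1 (by
      rw [div_le_one hu0]; exact hu.le)
    rw [Real.rpow_one] at h2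
    exact_mod_cast h1.trans h2
  have hm := hC y M (by omega) hyM
  rw [← hL, ← hl] at hm
  have hG : Gs y M = ∑ p ∈ (Finset.Ioc y M).filter Nat.Prime, (1 : ℝ) / p := rfl
  rw [← hG] at hm
  obtain ⟨hm1, hm2⟩ := abs_le.1 hm
  have hCl : C / l ≤ 1 := by
    rw [div_le_one hl0]
    linarith
  have hratio : 0 < L / l := by positivity
  have hup : Gs y M ≤ Real.log (2 * u) + 1 := by
    have : Real.log (L / l) ≤ Real.log (2 * u) := by
      apply Real.log_le_log hratio
      rw [div_le_iff₀ hl0]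
      rw [div_le_iff₀ (by positivity)] at hLl
      linarith
    linarith
  have h3 := hY y M (by omega) hyM hup
  -- the value of `rho`
  have h4 : u - C * u / l ≤ Real.exp (Gs y M) := by
    have e1 : Real.log (L / l) - C / l ≤ Gs y M := by linarith
    have e2 := Real.exp_le_exp.2 e1
    rw [Real.exp_sub, Real.exp_log hratio] at e2
    refine le_trans ?_ e2
    rw [le_div_iff₀ (Real.exp_pos _)]
    have e3 : u ≤ L / l := by
      rw [le_div_iff₀ hl0]
      have : 1 / u * L * u = L := by field_simp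
      nlinarith
    have e4 : (1 - C / l) * Real.exp (C / l) ≤ 1 := by
      have := Real.one_sub_le_exp_neg (C / l)
      have h5 : Real.exp (-(C / l)) * Real.exp (C / l) = 1 := by
        rw [← Real.exp_add, neg_add_cancel, Real.exp_zero]
      nlinarith [Real.exp_pos (C / l)]
    have e5 : u - C * u / l = u * (1 - C / l) := by ring
    rw [e5, mul_assoc]
    have e6 : u * ((1 - C / l) * Real.exp (C / l)) ≤ u * 1 := mul_le_mul_of_nonneg_left e4 hu0.le
    linarith
  have h5 : rho (Real.exp (Gs y M)) ≤ rho u + d / 2 := by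
    have e1 := rho_anti h4
    have e2 := rho_lip (show u - C * u / l ≤ u by
      have : 0 ≤ C * u / l := by positivity
      linarith)
    have e3 : C * u / l ≤ d / 2 := by
      rw [div_le_iff₀ hl0]
      have : 2 * C * u / d ≤ l := by linarith
      rw [div_le_iff₀ hd0] at this
      linarith
    linarith
  have h6 : ((Icc 1 M).filter (fun m : ℕ => ∀ p : ℕ, p.Prime → p ∣ m → p ≤ y)).card ≤
      Pool.Agent.Helper923.HCount.F (Pr y M) M := by
    unfold Pool.Agent.Helper923.HCount.F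
    apply card_le_card
    intro m hm
    rw [mem_filter, mem_Icc] at hm
    rw [Pool.Agent.Helper923.HCount.mem_free]
    refine ⟨hm.1, fun a ha had => ?_⟩
    rw [Pool.Agent.Helper923.HUpperQ.mem_Pr] at ha
    have := hm.2 a ha.2 had
    omega
  have h7 : (((Icc 1 M).filter (fun m : ℕ => ∀ p : ℕ, p.Prime → p ∣ m → p ≤ y)).card : ℝ) ≤
      (Pool.Agent.Helper923.HCount.F (Pr y M) M : ℝ) := by exact_mod_cast h6
  refine h7.trans (h3.trans ?_)
  have h8 : rho (Real.exp (Gs y M)) + d / 2 ≤ c := by linarith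
  calc (M : ℝ) * (rho (Real.exp (Gs y M)) + d / 2) ≤ M * c := mul_le_mul_of_nonneg_left h8 hM0.le
    _ = c * M := mul_comm _ _

open Classical in
/-- few integers are smooth -/
lemma few_smooth_rho {τ c : ℝ} (hτ : 0 < τ) (hτ1 : τ < 1) (hc : rho (1 / τ) < c) : ∃ M₀ : ℕ, ∀ M : ℕ, M₀ ≤ M →
    (((Icc 1 M).filter (fun m : ℕ => ∀ p : ℕ, p.Prime → p ∣ m → (p : ℝ) ≤ ((2 * M : ℕ) : ℝ) ^ τ)).card : ℝ) ≤
      c * M := by
  obtain ⟨u, hu⟩ : ∃ u, u = 1 / τ := ⟨_, rfl⟩
  have hu1 : 1 < u := by rw [hu, lt_div_iff₀ hτ]; linarith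
  rw [← hu] at hc
  obtain ⟨m, hm⟩ : ∃ m, m = min ((c - rho u) / 2) ((u - 1) / 2) := ⟨_, rfl⟩
  have hm0 : 0 < m := by rw [hm]; exact lt_min (by linarith) (by linarith)
  have hm1 : m ≤ (c - rho u) / 2 := by rw [hm]; exact min_le_left _ _
  have hm2 : m ≤ (u - 1) / 2 := by rw [hm]; exact min_le_right _ _
  obtain ⟨v, hv⟩ : ∃ v, v = u - m := ⟨_, rfl⟩
  have hv1 : 1 < v := by linarith
  have hvu : v < u := by linarith
  have hv0 : 0 < v := by linarith
  have hu0 : 0 < u := by linarith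
  have hcv : rho v < c := by
    have := rho_lip hvu.le
    linarith
  obtain ⟨M₁, h1⟩ := few_smooth1 hv1 hcv
  have hs : 0 < 1 / v - 1 / u := by
    have : 1 / u < 1 / v := one_div_lt_one_div_of_lt hv0 hvu
    linarith
  have ht := ((tendsto_rpow_atTop hs).comp (tendsto_natCast_atTop_atTop (R := ℝ))).eventually_ge_atTop (2 : ℝ)
  rw [eventually_atTop] at ht
  obtain ⟨M₂, h2⟩ := ht
  refine ⟨M₁ + M₂ + 1, fun M hM => ?_⟩
  have hM0 : (0 : ℝ) < M := by exact_mod_cast (by omega : 0 < M)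
  have h3 : (2 : ℝ) ≤ (M : ℝ) ^ (1 / v - 1 / u) := h2 M (by omega)
  have hτu : τ = 1 / u := by rw [hu, one_div_one_div]
  have h4 : ((2 * M : ℕ) : ℝ) ^ τ ≤ (M : ℝ) ^ (1 / v) := by
    push_cast
    rw [Real.mul_rpow (by norm_num) hM0.le]
    have e1 : (2 : ℝ) ^ τ ≤ 2 := by
      calc (2 : ℝ) ^ τ ≤ (2 : ℝ) ^ (1 : ℝ) := Real.rpow_le_rpow_of_exponent_le (by norm_num) hτ1.le
        _ = 2 := Real.rpow_one _
    calc (2 : ℝ) ^ τ * (M : ℝ) ^ τ ≤ (M : ℝ) ^ (1 / v - 1 / u) * (M : ℝ) ^ τ :=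
          mul_le_mul_of_nonneg_right (e1.trans h3) (by positivity)
      _ = (M : ℝ) ^ (1 / v) := by
          rw [← Real.rpow_add hM0, hτu]
          congr 1
          ring
  refine le_trans ?_ (h1 M (by omega))
  exact_mod_cast card_le_card (by
    intro m hm
    rw [mem_filter] at hm ⊢
    refine ⟨hm.1, fun p hp hpm => Nat.le_floor ((hm.2 p hp hpm).trans h4)⟩)

end Pool.Agent.T2h83.AQ
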