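import Pool.Agent.T2h83.GT.Wf
import Pool.Agent.R460.GS.Conv
import Pool.Agent.N733.AQ.D

/-! The theorem of project GT for real `x` and residue classes given by integers. -/

set_option autoImplicit false

namespace Pool.Agent.T2h83.AQ

open Finset
open Pool.Agent.Y883.T4 (badc class_le)
open Pool.Agent.R460.GS (mod_iff' gcd_toNat pow_range real_log)
open Pool.Agent.T2h83.GT

/-- the theorem of project GT for an arbitrary consequence of the property `WinT` -/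
theorem class_T {θ : ℝ} (hθ0 : 2 / 3 ≤ θ) (hθ1 : θ ≤ 5 / 6) (e : ℝ) (he : 0 < e) (Q : ℕ → Prop) (W : ℕ)
    (hQ : ∃ n₀ : ℕ, ∀ n : ℕ, n₀ ≤ n → 2 ∣ n →
      WinT W (1 - FU (θ / (2 - 2 * θ)) ^ 2 - e) (1 + FU (θ / (2 - 2 * θ)) + e) n → Q n)
    (ρ : ℝ) (hρ : 0 < ρ) (A T : ℕ) :
    ∃ x₀ : ℝ, ∀ x : ℝ, x₀ ≤ x → ∀ q : ℕ, 1 ≤ q → (q : ℝ) ≤ x ^ (θ - ρ) → ∀ a : ℤ,
      (Int.gcd a q : ℝ) ≤ Real.log x ^ T →
        ({n : ℕ | 0 < n ∧ (n : ℝ) ≤ x ∧ 2 ∣ n ∧ (n : ℤ) ≡ a [ZMOD q] ∧ ¬ Q n}).Finite ∧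
        (({n : ℕ | 0 < n ∧ (n : ℝ) ≤ x ∧ 2 ∣ n ∧ (n : ℤ) ≡ a [ZMOD q] ∧ ¬ Q n}.ncard : ℕ) : ℝ) ≤
          x / (q * Real.log x ^ A) := by
  classical
  obtain ⟨n₀', hn₀'⟩ := hQ
  obtain ⟨n₀, hn₀⟩ : ∃ n₀ : ℕ, n₀ = n₀' + 3 := ⟨_, rfl⟩
  obtain ⟨A', hA'⟩ : ∃ A', A' = A + 2 + W := ⟨_, rfl⟩
  obtain ⟨lo, hlo⟩ : ∃ lo, lo = 1 - FU (θ / (2 - 2 * θ)) ^ 2 - e := ⟨_, rfl⟩
  obtain ⟨hi, hhi⟩ : ∃ hi, hi = 1 + FU (θ / (2 - 2 * θ)) + e := ⟨_, rfl⟩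
  rw [← hlo, ← hhi] at hn₀'
  obtain ⟨N₀, h0⟩ := gt_F e he hθ0 hθ1 (θ - ρ / 2) (by linarith) A' (T + 1)
  rw [← hlo, ← hhi] at h0
  obtain ⟨x₁, hx₁⟩ : ∃ x₁ : ℝ, ∀ x : ℝ, x₁ ≤ x → 2 ^ (2 * A' + 6) + 2 * 2 ^ T ≤ Real.log x := by
    have h := Real.tendsto_log_atTop.eventually_ge_atTop (2 ^ (2 * A' + 6) + 2 * 2 ^ T : ℝ)
    exact Filter.eventually_atTop.1 h
  obtain ⟨x₂, hx₂4, hx₂⟩ := pow_range θ ρ hρ (by linarith)
  obtain ⟨x₃, hx₃⟩ := Filter.eventually_atTop.1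
    (real_log (A + 1) (s := 1 / 6) (by norm_num) (2 * (n₀ + 1)))
  refine ⟨max (max (max ((N₀ : ℝ) + 4) x₁) x₂) x₃, fun x hx => ?_⟩
  have hxN : (N₀ : ℝ) + 4 ≤ x :=
    (le_max_left _ _).trans ((le_max_left _ _).trans ((le_max_left _ _).trans hx))
  have hlx' := hx₁ x ((le_max_right _ _).trans ((le_max_left _ _).trans ((le_max_left _ _).trans hx)))
  have hrange := hx₂ x ((le_max_right _ _).trans ((le_max_left _ _).trans hx))
  have h2T : (0 : ℝ) < 2 * 2 ^ T := by positivity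
  have h2A : (0 : ℝ) < 2 ^ (2 * A' + 6) := by positivity
  have hlx : (2 : ℝ) ^ (2 * A' + 6) ≤ Real.log x := by linarith
  have hN₀r : (0 : ℝ) ≤ N₀ := Nat.cast_nonneg _
  have hx4 : 4 ≤ x := by linarith
  have hx0 : 0 < x := by linarith
  obtain ⟨N, hN⟩ : ∃ N, N = ⌊x⌋₊ := ⟨_, rfl⟩
  rw [← hN] at hrange
  have hNx : (N : ℝ) ≤ x := by rw [hN]; exact Nat.floor_le hx0.le
  have hxN1 : x < N + 1 := by rw [hN]; exact Nat.lt_floor_add_one x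
  have hN0 : (0 : ℝ) < N := by linarith
  have hNN₀ : N₀ ≤ N := by
    rw [hN]
    exact Nat.le_floor (by linarith)
  obtain ⟨l, hl⟩ : ∃ l, l = Real.log x := ⟨_, rfl⟩
  obtain ⟨L, hL⟩ : ∃ L, L = Real.log N := ⟨_, rfl⟩
  have h64 : (64 : ℝ) ≤ 2 ^ (2 * A' + 6) := by
    calc (64 : ℝ) = 2 ^ 6 := by norm_num
      _ ≤ 2 ^ (2 * A' + 6) := pow_le_pow_right₀ (by norm_num) (by omega)
  rw [← hl] at hlx hlx'
  have hl64 : 64 ≤ l := by linarith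
  have hLl : L ≤ l := by rw [hL, hl]; exact Real.log_le_log hN0 hNx
  have hlL : l / 2 ≤ L := by
    have h1 : x / 2 ≤ N := by linarith
    have h2 : Real.log (x / 2) ≤ L := by rw [hL]; exact Real.log_le_log (by linarith) h1
    rw [Real.log_div hx0.ne' (by norm_num), ← hl] at h2
    have h3 := Real.log_two_lt_d9
    linarith
  have hL0 : 0 < L := by linarith
  have hl0 : 0 < l := by linarith
  have hpow : 8 * l ^ A ≤ L ^ A' := by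
    have hL1 : 1 ≤ L := by linarith
    refine le_trans ?_ (pow_le_pow_right₀ hL1 (show A + 2 ≤ A' by omega))
    have h1 : (l / 2) ^ (A + 2) ≤ L ^ (A + 2) := pow_le_pow_left₀ (by linarith) hlL _
    refine le_trans ?_ h1
    rw [div_pow, le_div_iff₀ (by positivity), pow_add l A 2]
    have h2 : (8 : ℝ) * 2 ^ (A + 2) ≤ l ^ 2 := by
      calc (8 : ℝ) * 2 ^ (A + 2) = 2 ^ (A + 5) := by rw [show A + 5 = 3 + (A + 2) by ring, pow_add 2 3]; norm_num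
        _ ≤ 2 ^ (2 * A' + 6) := pow_le_pow_right₀ (by norm_num) (by omega)
        _ ≤ l := hlx
        _ ≤ l ^ 2 := by nlinarith
    calc 8 * l ^ A * 2 ^ (A + 2) = l ^ A * (8 * 2 ^ (A + 2)) := by ring
      _ ≤ l ^ A * l ^ 2 := mul_le_mul_of_nonneg_left h2 (by positivity)
  have hTT : l ^ T ≤ L ^ (T + 1) := by
    have h1 : l ^ T ≤ (2 * L) ^ T := pow_le_pow_left₀ hl0.le (by linarith) T
    rw [mul_pow] at h1
    refine h1.trans ?_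
    rw [pow_succ' L T]
    exact mul_le_mul_of_nonneg_right (by linarith) (by positivity)
  intro q hq hqx a ha
  have hq0 : (0 : ℝ) < q := by exact_mod_cast hq
  obtain ⟨a', ha'⟩ : ∃ a', a' = (a % (q : ℤ)).toNat := ⟨_, rfl⟩
  have hcon := h0 N hNN₀ q hq (hqx.trans hrange) a' (by
    rw [ha', gcd_toNat q a hq, ← hL]
    rw [← hl] at ha
    exact ha.trans hTT)
  rw [← hL] at hcon
  obtain ⟨PP, hPP⟩ : ∃ PP : ℕ → Prop, PP = fun m => 3 ≤ m → WinT A' lo hi m := ⟨_, rfl⟩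
  rw [← hPP] at hcon
  obtain ⟨S, hS⟩ : ∃ S, S = badc PP N q a' := ⟨_, rfl⟩
  rw [← hS] at hcon
  obtain ⟨S', hS'⟩ : ∃ S' : Finset ℕ, S' = (Icc 1 n₀).filter (fun n => n % q = a' % q) := ⟨_, rfl⟩
  have hS'c : (S'.card : ℝ) ≤ (n₀ : ℝ) / q + 1 := by
    apply class_le N q a' hq S' (n₀ : ℝ) (Nat.cast_nonneg _)
    intro n hn
    rw [hS', mem_filter, mem_Icc] at hn
    exact ⟨hn.2, by exact_mod_cast hn.1.2⟩
  have hsub : {n : ℕ | 0 < n ∧ (n : ℝ) ≤ x ∧ 2 ∣ n ∧ (n : ℤ) ≡ a [ZMOD q] ∧ ¬ Q n} ⊆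
      ((S ∪ S' : Finset ℕ) : Set ℕ) := by
    rintro n ⟨a1, a2, a3, a4, a5⟩
    have hmod := mod_iff' n q a hq a4
    rw [← ha'] at hmod
    rw [mem_coe, mem_union]
    by_cases hn : n ≤ n₀
    · right
      rw [hS', mem_filter, mem_Icc]
      exact ⟨⟨a1, hn⟩, hmod⟩
    · left
      rw [hS]
      refine mem_filter.2 ⟨mem_Icc.2 ⟨a1, ?_⟩, a3, hmod, ?_⟩
      · rw [hN]; exact Nat.le_floor a2
      · intro hw
        apply a5
        rw [hPP] at hw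
        have hw' : 3 ≤ n → WinT A' lo hi n := hw
        exact hn₀' n (by omega) a3 (WinT_mono (show W ≤ A' by omega) le_rfl le_rfl (by omega) (hw' (by omega)))
  have hfin := (Finset.finite_toSet (S ∪ S')).subset hsub
  refine ⟨hfin, ?_⟩
  have h1 : (({n : ℕ | 0 < n ∧ (n : ℝ) ≤ x ∧ 2 ∣ n ∧ (n : ℤ) ≡ a [ZMOD q] ∧ ¬ Q n}.ncard : ℕ) : ℝ) ≤
      (S.card : ℝ) + S'.card := by
    have h2 := Set.ncard_le_ncard hsub (Finset.finite_toSet _)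
    rw [Set.ncard_coe_finset] at h2
    have h3 := card_union_le S S'
    exact_mod_cast h2.trans h3
  rw [← hl]
  have hlA : 0 < l ^ A := by positivity
  have hfirst : (N : ℝ) / (q * L ^ A') ≤ x / (q * l ^ A) / 8 := by
    rw [div_div, div_le_div_iff₀ (by positivity) (by positivity)]
    calc (N : ℝ) * (q * l ^ A * 8) ≤ x * (q * l ^ A * 8) :=
          mul_le_mul_of_nonneg_right hNx (by positivity)
      _ = (x * q) * (8 * l ^ A) := by ring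
      _ ≤ (x * q) * L ^ A' := mul_le_mul_of_nonneg_left hpow (by positivity)
      _ = x * (q * L ^ A') := by ring
  -- the small exceptions
  have hsecond : (n₀ : ℝ) / q + 1 ≤ x / (q * l ^ A) / 2 := by
    obtain ⟨e1, e2⟩ := hx₃ x ((le_max_right _ _).trans hx)
    rw [← hl] at e1 e2
    have e3 : (n₀ : ℝ) / q ≤ n₀ := div_le_self (Nat.cast_nonneg _) (by exact_mod_cast hq)
    have e4 : x ^ (1 / 6 : ℝ) * q ≤ x := by
      calc x ^ (1 / 6 : ℝ) * q ≤ x ^ (1 / 6 : ℝ) * x ^ (θ - ρ) :=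
            mul_le_mul_of_nonneg_left hqx (by positivity)
        _ = x ^ (1 / 6 + θ - ρ) := by rw [← Real.rpow_add hx0]; congr 1; ring
        _ ≤ x ^ (1 : ℝ) := Real.rpow_le_rpow_of_exponent_le (by linarith) (by linarith)
        _ = x := Real.rpow_one x
    have e5 : ((n₀ : ℝ) + 1) * (2 * (q * l ^ A)) ≤ x := by
      calc ((n₀ : ℝ) + 1) * (2 * (q * l ^ A)) = (2 * (n₀ + 1)) * l ^ A * q := by ring
        _ ≤ l * l ^ A * q := by gcongr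
        _ = l ^ (A + 1) * q := by rw [pow_succ']
        _ ≤ x ^ (1 / 6 : ℝ) * q := mul_le_mul_of_nonneg_right e2 hq0.le
        _ ≤ x := e4
    rw [div_div, show (q : ℝ) * l ^ A * 2 = 2 * (q * l ^ A) by ring, le_div_iff₀ (by positivity)]
    refine le_trans ?_ e5
    exact mul_le_mul_of_nonneg_right (by linarith) (by positivity)
  have hpos : 0 ≤ x / (q * l ^ A) := by positivity
  linarith



/-- exceptional sets in the classes -/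
theorem ebt_T {θ : ℝ} (hθ0 : 2 / 3 ≤ θ) (hθ1 : θ ≤ 5 / 6) (e : ℝ) (he : 0 < e) (Q : ℕ → Prop) (W : ℕ)
    (hQ : ∃ n₀ : ℕ, ∀ n : ℕ, n₀ ≤ n → 2 ∣ n →
      WinT W (1 - FU (θ / (2 - 2 * θ)) ^ 2 - e) (1 + FU (θ / (2 - 2 * θ)) + e) n → Q n) :
    Pool.Agent.N733.AQ.EBT θ (fun n => 2 ∣ n → Q n) :=
  Pool.Agent.N733.AQ.ebt_of _ Q (fun ρ hρ A T => class_T hθ0 hθ1 e he Q W hQ ρ hρ A T)

end Pool.Agent.T2h83.AQ
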